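import Pool.Agent.TH280.BR.Stm

set_option autoImplicit false

/-! # BRM-TB4: the `L^4` bound for Bochner-Riesz means in `m + 2` variables with a weight -/

open MeasureTheory Set
open scoped ENNReal

namespace Pool.Agent.TH543.TB4

open Pool.Agent.TH280.LS Pool.Agent.TH280.BR

/-- joint measurability of the planar Fourier transforms -/
theorem ft2_meas {m : ℕ} {G : (Fin m → ℝ) → ℝ × ℝ → ℂ} (hG : Measurable (Function.uncurry G)) :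
    Measurable (fun p : (Fin m → ℝ) × (ℝ × ℝ) => ft2 (G p.1) p.2) := by
  unfold ft2
  refine (StronglyMeasurable.integral_prod_right'
    (f := fun q : ((Fin m → ℝ) × (ℝ × ℝ)) × (ℝ × ℝ) =>
      e (-(q.2.1 * q.1.2.1 + q.2.2 * q.1.2.2)) * G q.1.1 q.2) ?_).measurable
  refine Measurable.stronglyMeasurable ?_
  refine Measurable.mul ?_ ?_
  · exact measurable_e.comp (by fun_prop)
  · exact hG.comp (by fun_prop : Measurable fun q : ((Fin m → ℝ) × (ℝ × ℝ)) × (ℝ × ℝ) =>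
      (q.1.1, q.2))

/-- joint measurability of the planar operators -/
theorem H_meas {m : ℕ} {G : (Fin m → ℝ) → ℝ × ℝ → ℂ} (hG : Measurable (Function.uncurry G))
    (δ : ℝ) :
    StronglyMeasurable (fun p : (ℝ × ℝ) × (Fin m → ℝ) =>
      UB δ (1 - ∑ i, p.2 i ^ 2) (G p.2) p.1) := by
  unfold UB
  obtain ⟨F, hF⟩ : ∃ F : (Fin m → ℝ) → ℝ × ℝ → ℂ, ∀ η ξ, F η ξ = ft2 (G η) ξ :=
    ⟨_, fun _ _ => rfl⟩
  have hFm : Measurable (fun p : (Fin m → ℝ) × (ℝ × ℝ) => F p.1 p.2) := by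
    have h := ft2_meas hG
    simp only [← hF] at h
    exact h
  simp only [← hF]
  refine StronglyMeasurable.integral_prod_right'
    (f := fun q : ((ℝ × ℝ) × (Fin m → ℝ)) × (ℝ × ℝ) =>
      e (q.1.1.1 * q.2.1 + q.1.1.2 * q.2.2) *
      ((((max (1 - ∑ i, q.1.2 i ^ 2 - (q.2.1 ^ 2 + q.2.2 ^ 2)) 0) ^ δ : ℝ) : ℂ) *
        F q.1.2 q.2)) ?_
  refine Measurable.stronglyMeasurable ?_
  refine Measurable.mul ?_ (Measurable.mul ?_ ?_)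
  · exact measurable_e.comp (by fun_prop)
  · refine Complex.measurable_ofReal.comp ?_
    have h1 : Measurable (fun q : ((ℝ × ℝ) × (Fin m → ℝ)) × (ℝ × ℝ) =>
        max (1 - ∑ i, q.1.2 i ^ 2 - (q.2.1 ^ 2 + q.2.2 ^ 2)) 0) := by fun_prop
    exact h1.pow_const δ
  · exact hFm.comp
      (by fun_prop : Measurable fun q : ((ℝ × ℝ) × (Fin m → ℝ)) × (ℝ × ℝ) => (q.1.2, q.2))

/-- the unit box of the plane -/
def Bx : Set (ℝ × ℝ) := Icc (-1, -1) (1, 1)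

theorem mult_le {m : ℕ} {δ : ℝ} (hδ : 0 < δ) (η : Fin m → ℝ) (ξ : ℝ × ℝ) :
    (max (1 - ∑ i, η i ^ 2 - (ξ.1 ^ 2 + ξ.2 ^ 2)) 0) ^ δ ≤
      (Icc (-1 : Fin m → ℝ) 1).indicator (fun _ => (1 : ℝ)) η *
        Bx.indicator (fun _ => (1 : ℝ)) ξ := by
  have hS : 0 ≤ ∑ i, η i ^ 2 := Finset.sum_nonneg fun i _ => sq_nonneg _
  have hnn : 0 ≤ (Icc (-1 : Fin m → ℝ) 1).indicator (fun _ => (1 : ℝ)) η *
        Bx.indicator (fun _ => (1 : ℝ)) ξ :=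
    mul_nonneg (indicator_nonneg (fun _ _ => zero_le_one) _)
      (indicator_nonneg (fun _ _ => zero_le_one) _)
  rcases le_or_gt (1 - ∑ i, η i ^ 2 - (ξ.1 ^ 2 + ξ.2 ^ 2)) 0 with h | h
  · rw [max_eq_right h, Real.zero_rpow hδ.ne']
    exact hnn
  · have hη : η ∈ Icc (-1 : Fin m → ℝ) 1 := by
      have h1 : ∀ i, |η i| ≤ 1 := by
        intro i
        have h2 : η i ^ 2 ≤ ∑ i, η i ^ 2 := Finset.single_le_sum (f := fun i => η i ^ 2)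
          (fun j _ => sq_nonneg _) (Finset.mem_univ i)
        have h3 : η i ^ 2 ≤ 1 := by nlinarith [sq_nonneg ξ.1, sq_nonneg ξ.2]
        exact (sq_le_one_iff_abs_le_one _).1 h3
      exact ⟨fun i => (abs_le.1 (h1 i)).1, fun i => (abs_le.1 (h1 i)).2⟩
    have hξ : ξ ∈ Bx := by
      have h1 : |ξ.1| ≤ 1 := (sq_le_one_iff_abs_le_one _).1 (by nlinarith [sq_nonneg ξ.2])
      have h2 : |ξ.2| ≤ 1 := (sq_le_one_iff_abs_le_one _).1 (by nlinarith [sq_nonneg ξ.1])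
      exact ⟨⟨(abs_le.1 h1).1, (abs_le.1 h2).1⟩, ⟨(abs_le.1 h1).2, (abs_le.1 h2).2⟩⟩
    rw [indicator_of_mem hη, indicator_of_mem hξ, one_mul]
    refine Real.rpow_le_one (le_max_right _ _) ?_ hδ.le
    refine max_le ?_ zero_le_one
    nlinarith [sq_nonneg ξ.1, sq_nonneg ξ.2]

theorem Bx_int : Integrable (Bx.indicator (fun _ => (1 : ℝ)) : ℝ × ℝ → ℝ) := by
  have h : IntegrableOn (fun _ : ℝ × ℝ => (1 : ℝ)) Bx :=
    continuousOn_const.integrableOn_compact isCompact_Icc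
  exact h.integrable_indicator measurableSet_Icc

theorem box_int (m : ℕ) :
    Integrable ((Icc (-1 : Fin m → ℝ) 1).indicator (fun _ => (1 : ℝ)) : (Fin m → ℝ) → ℝ) := by
  have h : IntegrableOn (fun _ : Fin m → ℝ => (1 : ℝ)) (Icc (-1 : Fin m → ℝ) 1) :=
    continuousOn_const.integrableOn_compact isCompact_Icc
  exact h.integrable_indicator measurableSet_Icc

/-- the bound of the planar operators -/
theorem H_bound {m : ℕ} {G : (Fin m → ℝ) → ℝ × ℝ → ℂ} {g : ℝ × ℝ → ℝ} (hg : Integrable g)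
    (hGg : ∀ η z, ‖G η z‖ ≤ g z) {δ : ℝ} (hδ : 0 < δ) (z : ℝ × ℝ) (η : Fin m → ℝ) :
    ‖UB δ (1 - ∑ i, η i ^ 2) (G η) z‖ ≤
      ((∫ z, g z) * ∫ ξ, Bx.indicator (fun _ => (1 : ℝ)) ξ) *
        (Icc (-1 : Fin m → ℝ) 1).indicator (fun _ => (1 : ℝ)) η := by
  have hA : ∀ ξ, ‖ft2 (G η) ξ‖ ≤ ∫ z, g z := by
    intro ξ
    unfold ft2
    refine norm_integral_le_of_norm_le hg (Filter.Eventually.of_forall fun z => ?_)
    rw [norm_mul, norm_e, one_mul]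
    exact hGg η z
  have hA0 : 0 ≤ ∫ z, g z := le_trans (norm_nonneg _) (hA 0)
  unfold UB
  have hint : Integrable (fun ξ : ℝ × ℝ => ((∫ z, g z) *
      (Icc (-1 : Fin m → ℝ) 1).indicator (fun _ => (1 : ℝ)) η) *
      Bx.indicator (fun _ => (1 : ℝ)) ξ) := Bx_int.const_mul _
  have hle := norm_integral_le_of_norm_le (f := fun ξ : ℝ × ℝ => e (z.1 * ξ.1 + z.2 * ξ.2) *
    ((((max (1 - ∑ i, η i ^ 2 - (ξ.1 ^ 2 + ξ.2 ^ 2)) 0) ^ δ : ℝ) : ℂ) * ft2 (G η) ξ)) hint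
    (Filter.Eventually.of_forall fun ξ => ?_)
  · refine le_trans hle (le_of_eq ?_)
    rw [integral_const_mul]
    ring
  · rw [norm_mul, norm_e, one_mul, norm_mul, Complex.norm_real, Real.norm_eq_abs,
      abs_of_nonneg (Real.rpow_nonneg (le_max_right _ _) _)]
    have h0 : 0 ≤ (max (1 - ∑ i, η i ^ 2 - (ξ.1 ^ 2 + ξ.2 ^ 2)) 0) ^ δ :=
      Real.rpow_nonneg (le_max_right _ _) _
    calc (max (1 - ∑ i, η i ^ 2 - (ξ.1 ^ 2 + ξ.2 ^ 2)) 0) ^ δ * ‖ft2 (G η) ξ‖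
        ≤ ((Icc (-1 : Fin m → ℝ) 1).indicator (fun _ => (1 : ℝ)) η *
          Bx.indicator (fun _ => (1 : ℝ)) ξ) * ∫ z, g z :=
          mul_le_mul (mult_le hδ η ξ) (hA ξ) (norm_nonneg _) (h0.trans (mult_le hδ η ξ))
      _ = _ := by ring

/-- BRM-TB4 -/
theorem tb4_thm : S_PL → S_TB4 := by
  intro hPL m ρ δ hρ _ hE hδ
  obtain ⟨C4, hC4, hE4⟩ := hE
  obtain ⟨C1, hC1, hone⟩ := hPL δ hδ
  refine ⟨C4 * C1, by positivity, ?_⟩
  intro G hG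
  obtain ⟨hGm, g, hg, hGg⟩ := hG
  obtain ⟨H, hH⟩ : ∃ H : ℝ × ℝ → (Fin m → ℝ) → ℂ, ∀ z η, H z η =
      UB δ (1 - ∑ i, η i ^ 2) (G η) z := ⟨_, fun _ _ => rfl⟩
  obtain ⟨w, hw⟩ : ∃ w : (Fin m → ℝ) → ℝ≥0∞, ∀ η, w η = ENNReal.ofReal (ρ η ^ 2) :=
    ⟨_, fun _ => rfl⟩
  have hHm : StronglyMeasurable (fun p : (ℝ × ℝ) × (Fin m → ℝ) => H p.1 p.2) := by
    have h := H_meas hGm δ
    simp only [← hH] at h
    exact h
  have hwm : Measurable w := by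
    have h : w = fun η => ENNReal.ofReal (ρ η ^ 2) := funext hw
    rw [h]
    exact ENNReal.measurable_ofReal.comp (hρ.pow_const 2)
  have hw_top : ∀ η, w η ≠ ⊤ := fun η => by rw [hw]; exact ENNReal.ofReal_ne_top
  have hHe : Measurable (fun p : (ℝ × ℝ) × (Fin m → ℝ) => ‖H p.1 p.2‖ₑ ^ 4) :=
    hHm.measurable.enorm.pow_const 4
  simp only [← hw]
  -- step 1: E4 at fixed `z`
  have h1 : ∀ z : ℝ × ℝ, ∫⁻ y : Fin m → ℝ, ‖TB m δ G y z‖ₑ ^ 4 ≤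
      ENNReal.ofReal C4 * ∫⁻ η : Fin m → ℝ, w η * ‖H z η‖ₑ ^ 4 := by
    intro z
    have hk : Integrable (fun η => H z η) := by
      refine Integrable.mono' ((box_int m).const_mul
        ((∫ z, g z) * ∫ ξ, Bx.indicator (fun _ => (1 : ℝ)) ξ)) ?_ ?_
      · exact (hHm.comp_measurable
          (by fun_prop : Measurable fun η : Fin m → ℝ => (z, η))).aestronglyMeasurable
      · refine Filter.Eventually.of_forall fun η => ?_
        rw [hH]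
        exact H_bound hg hGg hδ z η
    have h := hE4 (fun η => H z η) hk
    simp only [hH, ← hw] at h
    simp only [hH]
    exact h
  -- step 2: integrate
  have h2 : ∫⁻ z : ℝ × ℝ, ∫⁻ y : Fin m → ℝ, ‖TB m δ G y z‖ₑ ^ 4 ≤
      ENNReal.ofReal C4 * ∫⁻ z : ℝ × ℝ, ∫⁻ η : Fin m → ℝ, w η * ‖H z η‖ₑ ^ 4 := by
    rw [← lintegral_const_mul' _ _ ENNReal.ofReal_ne_top]
    exact lintegral_mono fun z => h1 z
  refine le_trans h2 ?_
  have h3 : ∫⁻ z : ℝ × ℝ, ∫⁻ η : Fin m → ℝ, w η * ‖H z η‖ₑ ^ 4 =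
      ∫⁻ η : Fin m → ℝ, w η * ∫⁻ z : ℝ × ℝ, ‖H z η‖ₑ ^ 4 := by
    have hm2 : Measurable (fun p : (ℝ × ℝ) × (Fin m → ℝ) => w p.2 * ‖H p.1 p.2‖ₑ ^ 4) :=
      (hwm.comp measurable_snd).mul hHe
    have hm3 : AEMeasurable (Function.uncurry
        (fun (z : ℝ × ℝ) (η : Fin m → ℝ) => w η * ‖H z η‖ₑ ^ 4))
        ((volume : Measure (ℝ × ℝ)).prod (volume : Measure (Fin m → ℝ))) := hm2.aemeasurable
    rw [lintegral_lintegral_swap hm3]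
    refine lintegral_congr fun η => ?_
    rw [lintegral_const_mul' _ _ (hw_top η)]
  rw [h3]
  have h4 : ∫⁻ η : Fin m → ℝ, w η * ∫⁻ z : ℝ × ℝ, ‖H z η‖ₑ ^ 4 ≤
      ENNReal.ofReal C1 * ∫⁻ η : Fin m → ℝ, w η * ∫⁻ z : ℝ × ℝ, ‖G η z‖ₑ ^ 4 := by
    rw [← lintegral_const_mul' _ _ ENNReal.ofReal_ne_top]
    refine lintegral_mono fun η => ?_
    have hGi : Integrable (G η) := by
      refine Integrable.mono' hg ?_ (Filter.Eventually.of_forall fun z => hGg η z)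
      exact (hGm.comp (by fun_prop : Measurable fun z : ℝ × ℝ => (η, z))).aestronglyMeasurable
    have hS : 0 ≤ ∑ i, η i ^ 2 := Finset.sum_nonneg fun i _ => sq_nonneg _
    have h := hone (1 - ∑ i, η i ^ 2) (G η) (by linarith) hGi
    have h' : ∫⁻ z : ℝ × ℝ, ‖H z η‖ₑ ^ 4 ≤ ENNReal.ofReal C1 * ∫⁻ z : ℝ × ℝ, ‖G η z‖ₑ ^ 4 := by
      simp only [hH]
      exact h
    calc w η * ∫⁻ z : ℝ × ℝ, ‖H z η‖ₑ ^ 4
        ≤ w η * (ENNReal.ofReal C1 * ∫⁻ z : ℝ × ℝ, ‖G η z‖ₑ ^ 4) := mul_le_mul_right h' _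
      _ = ENNReal.ofReal C1 * (w η * ∫⁻ z : ℝ × ℝ, ‖G η z‖ₑ ^ 4) := by ring
  have h5 : ∫⁻ η : Fin m → ℝ, w η * ∫⁻ z : ℝ × ℝ, ‖G η z‖ₑ ^ 4 =
      ∫⁻ z : ℝ × ℝ, ∫⁻ η : Fin m → ℝ, w η * ‖G η z‖ₑ ^ 4 := by
    have hm1 : Measurable (fun p : (ℝ × ℝ) × (Fin m → ℝ) => ‖G p.2 p.1‖ₑ ^ 4) :=
      (hGm.comp (by fun_prop : Measurable fun p : (ℝ × ℝ) × (Fin m → ℝ) =>
        (p.2, p.1))).enorm.pow_const 4
    have hm2 : Measurable (fun p : (ℝ × ℝ) × (Fin m → ℝ) => w p.2 * ‖G p.2 p.1‖ₑ ^ 4) :=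
      (hwm.comp measurable_snd).mul hm1
    have hm3 : AEMeasurable (Function.uncurry
        (fun (z : ℝ × ℝ) (η : Fin m → ℝ) => w η * ‖G η z‖ₑ ^ 4))
        ((volume : Measure (ℝ × ℝ)).prod (volume : Measure (Fin m → ℝ))) := hm2.aemeasurable
    rw [lintegral_lintegral_swap hm3]
    refine lintegral_congr fun η => ?_
    rw [lintegral_const_mul' _ _ (hw_top η)]
  calc ENNReal.ofReal C4 * ∫⁻ η : Fin m → ℝ, w η * ∫⁻ z : ℝ × ℝ, ‖H z η‖ₑ ^ 4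
      ≤ ENNReal.ofReal C4 * (ENNReal.ofReal C1 *
        ∫⁻ η : Fin m → ℝ, w η * ∫⁻ z : ℝ × ℝ, ‖G η z‖ₑ ^ 4) := mul_le_mul_right h4 _
    _ = ENNReal.ofReal (C4 * C1) * ∫⁻ z : ℝ × ℝ, ∫⁻ η : Fin m → ℝ, w η * ‖G η z‖ₑ ^ 4 := by
        rw [h5, ← mul_assoc, ENNReal.ofReal_mul (by positivity)]

end Pool.Agent.TH543.TB4
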