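import Mathlib
import Pool.Agent.TH614.HS.Defs2

/-!
# Job 3615 (HS-G0): evaluation of the Stepanov polynomial
-/

set_option autoImplicit false

namespace Pool.Agent.TH543.HS

open Polynomial
open Pool.Agent.TH614.HS

theorem cc_eval {L : Type} [Field L] (D : HD L) (P Y s : L) (hs : s ≠ 0) :
    (D.CC P Y).eval s = s * Dq D.th s P (P ^ (D.q ^ 2)) (P ^ (D.q ^ 4)) Y := by
  unfold HD.CC Dq
  simp only [eval_add, eval_sub, eval_mul, eval_pow, eval_C, eval_X]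
  field_simp
  ring

theorem cd_eval {L : Type} [Field L] (D : HD L) (P Y s : L) (hs : s ≠ 0) :
    (D.CD P Y).eval s =
      s ^ 2 * Dq (-D.th) s⁻¹ (P ^ (D.q ^ 3)) (P ^ (D.q ^ 5)) (P ^ D.q) (Y ^ D.q) := by
  unfold HD.CD Dq
  simp only [eval_add, eval_mul, eval_pow, eval_C, eval_X]
  field_simp
  ring

theorem bp_eval {L : Type} [Field L] (D : HD L) (P Y s : L) (hs : s ≠ 0) :
    (D.BP P Y).eval s = s ^ (D.q + 1) *
      Bq D.th s (D.nt s) P (P ^ (D.q ^ 2)) (P ^ (D.q ^ 4)) Y (P ^ (D.q ^ 3)) (P ^ (D.q ^ 5))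
        (P ^ D.q) (Y ^ D.q) := by
  unfold HD.BP Bq HD.nt
  simp only [eval_add, eval_sub, eval_mul, eval_pow, eval_C, eval_X]
  have e1 : s ^ (2 * D.q + 2) = (s ^ D.q) ^ 2 * s ^ 2 := by rw [← pow_mul, ← pow_add]; congr 1; ring
  have e2 : s ^ (2 * D.q + 1) = (s ^ D.q) ^ 2 * s := by rw [← pow_mul, ← pow_succ]; congr 1; ring
  have e3 : s ^ (2 * D.q) = (s ^ D.q) ^ 2 := by rw [← pow_mul]; congr 1; ring
  have e4 : s ^ (D.q + 2) = s ^ D.q * s ^ 2 := by rw [pow_add]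
  have e5 : s ^ (D.q + 1) = s ^ D.q * s := by rw [pow_succ]
  rw [e1, e2, e3, e4, e5]
  have hS : s ^ D.q ≠ 0 := pow_ne_zero _ hs
  generalize s ^ D.q = S at *
  generalize P ^ (D.q ^ 2) = P1
  generalize P ^ (D.q ^ 4) = P2
  generalize P ^ (D.q ^ 3) = R0
  generalize P ^ (D.q ^ 5) = R1
  generalize P ^ D.q = R2
  generalize Y ^ D.q = Z
  field_simp
  ring

theorem G0 : S_G0 := by
  intro L _ D P Y s e _ hs
  have hm : 2 * ((D.q + 1) / 2) = D.q + 1 := by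
    have := D.h4
    omega
  unfold HD.G
  simp only [eval_sub, eval_mul, eval_pow, eval_C, eval_X]
  rw [bp_eval D P Y s hs, cc_eval D P Y s hs, cd_eval D P Y s hs, mul_pow, mul_pow]
  have e1 : s ^ (D.q + 1) = (s ^ ((D.q + 1) / 2)) ^ 2 := by
    rw [← pow_mul]; congr 1; omega
  have e2 : (s ^ 2) ^ ((D.q + 1) / 2) = (s ^ ((D.q + 1) / 2)) ^ 2 := by
    rw [← pow_mul, ← pow_mul]; congr 1; omega
  rw [e1, e2]
  ring

end Pool.Agent.TH543.HS
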