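import Mathlib
import Pool.Agent.TH614.HS.Defs2

/-!
# Job 3616 (HS-DEG): degree of the Stepanov polynomial
-/

set_option autoImplicit false

namespace Pool.Agent.TH543.HS

open Polynomial
open Pool.Agent.TH614.HS

theorem th_unit {L : Type} [Field L] (D : HD L) (e : L) (he : e = 1 ∨ e = -1) :
    (D.th + 2 * e) * (D.th - 2 * e) = -1 := by
  have h := D.th2
  rcases he with rfl | rfl <;> linear_combination h

theorem dsub {L : Type} [Field L] {p q : L[X]} {n : ℕ} (hp : p.natDegree ≤ n)
    (hq : q.natDegree ≤ n) : (p - q).natDegree ≤ n :=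
  (natDegree_sub_le_of_le hp hq).trans (by simp)

theorem dadd {L : Type} [Field L] {p q : L[X]} {n : ℕ} (hp : p.natDegree ≤ n)
    (hq : q.natDegree ≤ n) : (p + q).natDegree ≤ n :=
  (natDegree_add_le_of_le hp hq).trans (by simp)

theorem cx_le {L : Type} [Field L] (a : L) : (C a * X : L[X]).natDegree ≤ 1 := by
  have := natDegree_C_mul_X_pow_le a 1
  rwa [pow_one] at this

theorem bp_deg {L : Type} [Field L] (D : HD L) (P Y : L) :
    (D.BP P Y).natDegree ≤ 2 * D.q + 2 := by
  have h5 := D.h5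
  unfold HD.BP
  refine (dsub (n := 2 * D.q + 2) ?_ ?_)
  · refine (dsub (n := 2 * D.q + 2) ?_ ?_)
    · refine (dadd (n := 2 * D.q + 2) ?_ ?_)
      · refine (dadd (n := 2 * D.q + 2) ?_ ?_)
        · refine (dsub (n := 2 * D.q + 2) ?_ ?_)
          · refine (dsub (n := 2 * D.q + 2) ?_ ?_)
            · refine (dsub (n := 2 * D.q + 2) ?_ ?_)
              · refine (dadd (n := 2 * D.q + 2) ?_ ?_)
                · exact natDegree_C_mul_X_pow_le _ _
                · exact (natDegree_C_mul_X_pow_le _ _).trans (by omega)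
              · exact (natDegree_C_mul_X_pow_le _ _).trans (by omega)
            · exact (natDegree_C_mul_X_pow_le _ _).trans (by omega)
          · exact (natDegree_C_mul_X_pow_le _ _).trans (by omega)
        · exact (natDegree_C_mul_X_pow_le _ _).trans (by omega)
      · exact (natDegree_C_mul_X_pow_le _ _).trans (by omega)
    · exact (cx_le _).trans (by omega)
  · rw [natDegree_C]; omega

theorem bp_coeff {L : Type} [Field L] (D : HD L) (P Y : L) :
    (D.BP P Y).coeff (2 * D.q + 2) = -D.th * P ^ (D.q + 1) := by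
  have h5 := D.h5
  unfold HD.BP
  simp only [coeff_add, coeff_sub, coeff_C_mul_X_pow, coeff_C_mul_X, coeff_C]
  rw [if_pos trivial, if_neg (by omega), if_neg (by omega), if_neg (by omega), if_neg (by omega),
    if_neg (by omega), if_neg (by omega), if_neg (by omega), if_neg (by omega)]
  ring

theorem cc_deg {L : Type} [Field L] (D : HD L) (P Y : L) : (D.CC P Y).natDegree ≤ 3 := by
  unfold HD.CC
  refine (dadd (n := 3) ?_ ?_)
  · refine (dadd (n := 3) ?_ ?_)
    · refine (dsub (n := 3) ?_ ?_)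
      · exact natDegree_C_mul_X_pow_le _ _
      · exact (natDegree_C_mul_X_pow_le _ _).trans (by omega)
    · exact (cx_le _).trans (by omega)
  · rw [natDegree_C]; omega

theorem cc_coeff {L : Type} [Field L] (D : HD L) (P Y : L) : (D.CC P Y).coeff 3 = P ^ 2 := by
  unfold HD.CC
  simp only [coeff_add, coeff_sub, coeff_C_mul_X_pow, coeff_C_mul_X, coeff_C]
  norm_num

theorem cd_deg {L : Type} [Field L] (D : HD L) (P Y : L) : (D.CD P Y).natDegree ≤ 3 := by
  unfold HD.CD
  refine (dadd (n := 3) ?_ ?_)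
  · refine (dadd (n := 3) ?_ ?_)
    · refine (dadd (n := 3) ?_ ?_)
      · exact natDegree_C_mul_X_pow_le _ _
      · exact (natDegree_C_mul_X_pow_le _ _).trans (by omega)
    · exact (cx_le _).trans (by omega)
  · rw [natDegree_C]; omega

theorem DEG : S_DEG := by
  intro L _ D e P Y he hP
  have h4 := D.h4
  have h5 := D.h5
  have hun := th_unit D e he
  have hu1 : D.th + 2 * e ≠ 0 := fun h => by rw [h, zero_mul] at hun; norm_num at hun
  have hu2 : D.th - 2 * e ≠ 0 := fun h => by rw [h, mul_zero] at hun; norm_num at hun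
  obtain ⟨m, hm⟩ : ∃ m, D.q + 1 = 2 * m := ⟨(D.q + 1) / 2, by omega⟩
  have hm2 : (D.q + 1) / 2 = m := by omega
  have hm0 : 0 < m := by omega
  have hdm : (X ^ m * D.CC P Y ^ m - D.CD P Y ^ m : L[X]).natDegree ≤ 2 * D.q + 2 := by
    refine dsub ?_ ?_
    · refine natDegree_mul_le.trans ?_
      have h1 := natDegree_pow_le_of_le m (cc_deg D P Y)
      rw [natDegree_X_pow]
      omega
    · have h1 := natDegree_pow_le_of_le m (cd_deg D P Y)
      omega
  have hcm : (X ^ m * D.CC P Y ^ m - D.CD P Y ^ m : L[X]).coeff (2 * D.q + 2) =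
      P ^ (D.q + 1) := by
    rw [coeff_sub]
    have e1 : 2 * D.q + 2 = m * 3 + m := by omega
    rw [e1, coeff_X_pow_mul, coeff_pow_of_natDegree_le (cc_deg D P Y), cc_coeff,
      coeff_eq_zero_of_natDegree_lt, sub_zero, ← pow_mul, hm]
    have h1 := natDegree_pow_le_of_le m (cd_deg D P Y)
    omega
  constructor
  · apply le_antisymm
    · unfold HD.G
      rw [hm2]
      refine dsub (bp_deg D P Y) ?_
      refine natDegree_mul_le.trans ?_
      rw [natDegree_C]
      omega
    · apply le_natDegree_of_ne_zero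
      unfold HD.G
      rw [hm2, coeff_sub, coeff_C_mul, hcm, bp_coeff]
      have e2 : -D.th * P ^ (D.q + 1) - 2 * e * P ^ (D.q + 1) =
          -(D.th + 2 * e) * P ^ (D.q + 1) := by ring
      rw [e2]
      exact mul_ne_zero (neg_ne_zero.2 hu1) (pow_ne_zero _ hP)
  · unfold HD.G HD.BP HD.CC HD.CD
    rw [hm2]
    simp only [eval_add, eval_sub, eval_mul, eval_pow, eval_C, eval_X]
    rw [zero_pow (by omega : (2 * D.q + 2) ≠ 0), zero_pow (by omega : (2 * D.q + 1) ≠ 0),
      zero_pow (by omega : (2 * D.q) ≠ 0), zero_pow (by omega : (D.q + 2) ≠ 0),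
      zero_pow (by omega : (D.q + 1) ≠ 0), zero_pow (by omega : D.q ≠ 0),
      zero_pow (by omega : m ≠ 0)]
    have e3 : ((P ^ D.q ^ 3) ^ 2) ^ m = P ^ D.q ^ 4 * P ^ D.q ^ 3 := by
      rw [← pow_mul, ← hm, ← pow_mul, ← pow_add]
      congr 1
    simp only [mul_zero, zero_mul, zero_add, add_zero, sub_zero, zero_sub, ne_eq,
      OfNat.ofNat_ne_zero, not_false_eq_true, zero_pow]
    rw [e3]
    have e4 : -(D.th * P ^ D.q ^ 4 * P ^ D.q ^ 3) - 2 * e * -(P ^ D.q ^ 4 * P ^ D.q ^ 3) =
        -(D.th - 2 * e) * (P ^ D.q ^ 4 * P ^ D.q ^ 3) := by ring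
    rw [e4]
    exact mul_ne_zero (neg_ne_zero.2 hu2) (mul_ne_zero (pow_ne_zero _ hP) (pow_ne_zero _ hP))

end Pool.Agent.TH543.HS
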