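import Mathlib
import Pool.Agent.TH614.HS.Defs2

/-!
# Job 3618 (HS-NL): number of isotropic vectors and circle elements
-/

set_option autoImplicit false

namespace Pool.Agent.TH543.HS

open Polynomial
open Pool.Agent.TH614.HS

section
variable {L : Type} [Field L]

theorem cnt [IsAlgClosed L] (f : L[X]) (hf : f.Separable) :
    open Classical in f.roots.toFinset.card = f.natDegree := by
  classical
  rw [Multiset.toFinset_card_of_nodup (nodup_roots hf)]
  exact (IsAlgClosed.splits f).natDegree_eq_card_roots.symm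

theorem pow_cnt [IsAlgClosed L] (n : ℕ) (hn : (n : L) ≠ 0) (w : L) (hw : w ≠ 0) :
    open Classical in (nthRoots n w).toFinset.card = n := by
  classical
  have h := cnt (X ^ n - C w) (separable_X_pow_sub_C w hn hw)
  rw [natDegree_X_pow_sub_C] at h
  exact h

/-- the additive polynomial `X ^ (q ^ 2) + X ^ q + X` -/
noncomputable def addP (D : HD L) : L[X] := X ^ (D.q ^ 2) + X ^ D.q + X

theorem qcast (D : HD L) (n : ℕ) (hn : 0 < n) : ((D.q ^ n : ℕ) : L) = 0 := by
  rw [Nat.cast_pow, D.qz, zero_pow (by omega)]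

theorem addP_sep (D : HD L) : (addP D).Separable := by
  have h : derivative (addP D) = 1 := by
    unfold addP
    rw [derivative_add, derivative_add, derivative_X_pow, derivative_X_pow, derivative_X,
      qcast D 2 (by norm_num), D.qz]
    simp
  rw [separable_def, h]
  exact isCoprime_one_right

theorem addP_deg (D : HD L) : (addP D).natDegree = D.q ^ 2 := by
  have h5 := D.h5
  have h1 : D.q < D.q ^ 2 := by nlinarith
  unfold addP
  have e1 : (X ^ (D.q ^ 2) + X ^ D.q : L[X]).natDegree = D.q ^ 2 := by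
    rw [natDegree_add_eq_left_of_natDegree_lt]
    · exact natDegree_X_pow _
    · rw [natDegree_X_pow, natDegree_X_pow]; exact h1
  rw [natDegree_add_eq_left_of_natDegree_lt]
  · exact e1
  · rw [e1, natDegree_X]; omega

/-- nonzero roots -/
noncomputable def WW (D : HD L) : Finset L :=
  open Classical in (addP D).roots.toFinset.erase 0

theorem addP_ne (D : HD L) : addP D ≠ 0 := (addP_sep D).ne_zero

theorem mem_WW (D : HD L) (w : L) : w ∈ WW D ↔ w ≠ 0 ∧ w + w ^ D.q + w ^ (D.q ^ 2) = 0 := by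
  classical
  unfold WW
  rw [Finset.mem_erase, Multiset.mem_toFinset, mem_roots (addP_ne D), IsRoot.def]
  simp only [addP, eval_add, eval_pow, eval_X]
  constructor
  · rintro ⟨h1, h2⟩
    exact ⟨h1, by linear_combination h2⟩
  · rintro ⟨h1, h2⟩
    exact ⟨h1, by linear_combination h2⟩

theorem card_WW [IsAlgClosed L] (D : HD L) : (WW D).card = D.q ^ 2 - 1 := by
  classical
  unfold WW
  rw [Finset.card_erase_of_mem, cnt _ (addP_sep D), addP_deg]
  rw [Multiset.mem_toFinset, mem_roots (addP_ne D), IsRoot.def]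
  have h5 := D.h5
  simp only [addP, eval_add, eval_pow, eval_X]
  rw [zero_pow (by positivity), zero_pow (by omega)]
  simp

theorem pow_three (D : HD L) (w : L) (h : w + w ^ D.q + w ^ (D.q ^ 2) = 0) :
    w ^ (D.q ^ 3) = w := by
  have h5 := D.h5
  have h1 : (w + w ^ D.q + w ^ (D.q ^ 2)) ^ D.q = 0 := by
    rw [h, zero_pow (by omega)]
  rw [D.add, D.add] at h1
  have h2 : (w ^ D.q) ^ D.q = w ^ (D.q ^ 2) := by rw [← pow_mul, ← pow_two]
  have h4 : (w ^ (D.q ^ 2)) ^ D.q = w ^ (D.q ^ 3) := by rw [← pow_mul, ← pow_succ]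
  rw [h2, h4] at h1
  linear_combination h1 - h

theorem isL_iff (D : HD L) (x : L) : D.isL x ↔ x ^ (D.q ^ 3 + 1) ∈ WW D := by
  have h5 := D.h5
  rw [mem_WW]
  unfold HD.isL
  have e2 : (x ^ (D.q ^ 3 + 1)) ^ (D.q ^ 2) = x ^ (D.q ^ 2) * x ^ (D.q ^ 5) := by
    rw [← pow_mul, ← pow_add]
    congr 1
    ring
  have e1 : (x ^ (D.q ^ 3 + 1)) ^ D.q = x ^ (D.q ^ 4) * x ^ D.q := by
    rw [← pow_mul, ← pow_add]
    congr 1
    ring
  have e0 : x ^ (D.q ^ 3 + 1) = x * x ^ (D.q ^ 3) := by
    rw [pow_succ]; ring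
  constructor
  · rintro ⟨h0, h6, h⟩
    refine ⟨pow_ne_zero _ h0, ?_⟩
    rw [e1, e2, e0]
    linear_combination h
  · rintro ⟨h0, h⟩
    have hx : x ≠ 0 := by
      rintro rfl
      exact h0 (zero_pow (by omega))
    set w := x ^ (D.q ^ 3 + 1) with hw
    have h3 : w ^ (D.q ^ 3) = w := pow_three D w h
    have h6 : x ^ (D.q ^ 6) = x := by
      have h7 : x ^ (D.q ^ 6) * x ^ (D.q ^ 3) = x * x ^ (D.q ^ 3) := by
        rw [← e0, ← h3, hw, ← pow_mul, ← pow_add]
        congr 1
        ring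
      exact mul_right_cancel₀ (pow_ne_zero _ hx) h7
    refine ⟨hx, h6, ?_⟩
    rw [e1, e2, e0] at h
    linear_combination h

theorem circ_card [IsAlgClosed L] (D : HD L) : {s : L | D.circ s}.ncard = D.q ^ 3 + 1 := by
  classical
  have h1 : ((D.q ^ 3 + 1 : ℕ) : L) ≠ 0 := by
    rw [Nat.cast_add, qcast D 3 (by norm_num)]; simp
  have h2 : {s : L | D.circ s} = ((nthRoots (D.q ^ 3 + 1) (1 : L)).toFinset : Set L) := by
    ext s
    simp only [Set.mem_ofPred_eq, Finset.mem_coe, Multiset.mem_toFinset]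
    rw [mem_nthRoots (by omega)]
    rfl
  rw [h2, Set.ncard_coe_finset, pow_cnt _ h1 1 one_ne_zero]

theorem isL_card [IsAlgClosed L] (D : HD L) :
    {x : L | D.isL x}.ncard = (D.q ^ 2 - 1) * (D.q ^ 3 + 1) := by
  classical
  have h1 : ((D.q ^ 3 + 1 : ℕ) : L) ≠ 0 := by
    rw [Nat.cast_add, qcast D 3 (by norm_num)]; simp
  have h2 : {x : L | D.isL x} =
      ((WW D).biUnion (fun w => (nthRoots (D.q ^ 3 + 1) w).toFinset) : Finset L) := by
    ext x
    simp only [Set.mem_ofPred_eq, Finset.mem_coe, Finset.mem_biUnion, Multiset.mem_toFinset]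
    rw [isL_iff]
    constructor
    · intro h
      exact ⟨_, h, (mem_nthRoots (by omega)).2 rfl⟩
    · rintro ⟨w, hw, h⟩
      rw [mem_nthRoots (by omega)] at h
      rwa [h]
  rw [h2, Set.ncard_coe_finset, Finset.card_biUnion]
  · rw [Finset.sum_congr rfl (fun w hw => pow_cnt _ h1 w ((mem_WW D w).1 hw).1),
      Finset.sum_const, card_WW, smul_eq_mul]
  · intro w _ w' _ hne
    rw [Function.onFun, Finset.disjoint_left]
    intro x hx hx'
    rw [Multiset.mem_toFinset, mem_nthRoots (by omega)] at hx hx'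
    exact hne (hx.symm.trans hx')

end

theorem NL : S_NL := fun _ _ _ D => ⟨isL_card D, circ_card D⟩

end Pool.Agent.TH543.HS
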